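import Mathlib
import Pool.Agent.Helper16.N4.Crv
import Pool.Agent.Helper76.N4.Mon

/-!
# The example of type 2: the forms
-/

set_option autoImplicit false

namespace Pool.Agent.Helper88.N4

open Pool.Agent.Helper64.HK Pool.Agent.Helper24.HK Pool.Agent.Helper16.N4
open Pool.Agent.Helper28.HN (I aff)
open Pool.Agent.Helper76.N4 (Mo cM map_cM Mf_two)

/-- The type. -/
abbrev a2 : Fin (1 + 1) → Fin (3 + 1) := ![0, 1]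

variable {S : Type*} [CommRing S]

/-- A monomial. -/
def mo (c : ℤ) (p0 p1 q : I 3) : Mo 1 3 := ⟨c, ![p0, p1], fun _ => q⟩

/-- The monomials. -/
def M2 : Fin (3 + 1) → List (Mo 1 3) :=
  ![[mo (-6) 0 0 4, mo 4 0 1 0, mo (-4) 0 1 2, mo 4 0 1 3, mo (-2) 0 1 4, mo 1 2 1 2, mo 2 2 1 4,
      mo (-2) 1 1 3, mo 2 1 1 4, mo 1 3 1 4, mo 2 0 3 0, mo 1 0 3 1, mo (-2) 1 3 0, mo (-1) 1 3 1,
      mo 1 0 4 0],
    [mo 1 4 0 0, mo (-1) 3 1 1, mo 2 0 0 3, mo (-1) 0 0 4, mo (-2) 1 0 3, mo 1 1 0 4, mo 1 0 2 2],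
    [mo 1 2 0 0, mo (-1) 0 1 0, mo 1 1 2 0],
    [mo 1 3 0 0, mo (-1) 1 1 0, mo 1 0 3 0]]

/-- The coefficients. -/
def c2 : Ix a2 → S := cM M2

theorem map_c2 {S' : Type*} [CommRing S'] (f : S →+* S') : (fun e => f ((c2 : Ix a2 → S) e)) = c2 :=
  map_cM f M2

theorem Mf0 (U V : Fin (1 + 1) → I 3 → S) : Mf (c2 : Ix a2 → S) 0 U V =
    U 1 0 * (U 0 0 * (-6 * V 0 4)) +
    U 1 1 * (U 0 0 * (4 * V 0 0 - 4 * V 0 2 + 4 * V 0 3 - 2 * V 0 4) + U 0 2 * (V 0 2 + 2 * V 0 4) +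
      U 0 1 * (-2 * V 0 3 + 2 * V 0 4) + U 0 3 * V 0 4) +
    U 1 3 * (U 0 0 - U 0 1) * (2 * V 0 0 + V 0 1) + U 1 4 * U 0 0 * V 0 0 := by
  rw [c2, Mf_two]
  simp [M2, mo]
  ring

theorem Mf1 (U V : Fin (1 + 1) → I 3 → S) : Mf (c2 : Ix a2 → S) 1 U V =
    U 1 0 * U 0 4 * V 1 0 - U 1 1 * U 0 3 * V 1 1 +
      U 1 0 * (U 0 0 - U 0 1) * (2 * V 1 3 - V 1 4) + U 1 2 * U 0 0 * V 1 2 := by
  rw [c2, Mf_two]
  simp [M2, mo]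
  ring

theorem Mf2 (U V : Fin (1 + 1) → I 3 → S) : Mf (c2 : Ix a2 → S) 2 U V =
    U 1 0 * U 0 2 - U 1 1 * U 0 0 + U 1 2 * U 0 1 := by
  rw [c2, Mf_two]
  simp [M2, mo]
  ring

theorem Mf3 (U V : Fin (1 + 1) → I 3 → S) : Mf (c2 : Ix a2 → S) 3 U V =
    U 1 0 * U 0 3 - U 1 1 * U 0 1 + U 1 3 * U 0 0 := by
  rw [c2, Mf_two]
  simp [M2, mo]
  ring

end Pool.Agent.Helper88.N4
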