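import Mathlib
import Pool.Agent.Helper88.N4.Ex2Defs

/-!
# The example of type 2: closed forms
-/

set_option autoImplicit false

namespace Pool.Agent.Helper88.N4

open Pool.Agent.Helper64.HK Pool.Agent.Helper24.HK Pool.Agent.Helper16.N4
open Pool.Agent.Helper28.HN (I aff)

section

variable {S : Type*} [CommRing S]

variable (X : Fin (1 + 1) → I 3 → S)

theorem rf00 (v : I 3 → S) : rf (c2 : Ix a2 → S) 0 X 0 v =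
    X 1 0 * v 4 * X 1 0 - X 1 1 * v 3 * X 1 1 +
      X 1 0 * (v 0 - v 1) * (2 * X 1 3 - X 1 4) + X 1 2 * v 0 * X 1 2 := by
  have h : rf (c2 : Ix a2 → S) 0 X 0 v =
    Mf c2 1 (Function.update X 0 v) (Function.update X 0 v) := rfl
  rw [h, Mf1]
  simp

theorem rf01 (v : I 3 → S) : rf (c2 : Ix a2 → S) 0 X 1 v =
    X 1 0 * v 2 - X 1 1 * v 0 + X 1 2 * v 1 := by
  have h : rf (c2 : Ix a2 → S) 0 X 1 v =
    Mf c2 2 (Function.update X 0 v) (Function.update X 0 v) := rfl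
  rw [h, Mf2]
  simp

theorem rf02 (v : I 3 → S) : rf (c2 : Ix a2 → S) 0 X 2 v =
    X 1 0 * v 3 - X 1 1 * v 1 + X 1 3 * v 0 := by
  have h : rf (c2 : Ix a2 → S) 0 X 2 v =
    Mf c2 3 (Function.update X 0 v) (Function.update X 0 v) := rfl
  rw [h, Mf3]
  simp

theorem rf10 (v : I 3 → S) : rf (c2 : Ix a2 → S) 1 X 0 v =
    v 0 * (X 0 0 * (-6 * X 0 4)) +
    v 1 * (X 0 0 * (4 * X 0 0 - 4 * X 0 2 + 4 * X 0 3 - 2 * X 0 4) + X 0 2 * (X 0 2 + 2 * X 0 4) +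
      X 0 1 * (-2 * X 0 3 + 2 * X 0 4) + X 0 3 * X 0 4) +
    v 3 * (X 0 0 - X 0 1) * (2 * X 0 0 + X 0 1) + v 4 * X 0 0 * X 0 0 := by
  have h : rf (c2 : Ix a2 → S) 1 X 0 v =
    Mf c2 0 (Function.update X 1 v) (Function.update X 1 v) := rfl
  rw [h, Mf0]
  simp

theorem rf11 (v : I 3 → S) : rf (c2 : Ix a2 → S) 1 X 1 v =
    v 0 * X 0 2 - v 1 * X 0 0 + v 2 * X 0 1 := by
  have h : rf (c2 : Ix a2 → S) 1 X 1 v =
    Mf c2 2 (Function.update X 1 v) (Function.update X 1 v) := rfl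
  rw [h, Mf2]
  simp

theorem rf12 (v : I 3 → S) : rf (c2 : Ix a2 → S) 1 X 2 v =
    v 0 * X 0 3 - v 1 * X 0 1 + v 3 * X 0 0 := by
  have h : rf (c2 : Ix a2 → S) 1 X 2 v =
    Mf c2 3 (Function.update X 1 v) (Function.update X 1 v) := rfl
  rw [h, Mf3]
  simp

theorem Mx_eq (h : X 1 0 = 1) : Mx (c2 : Ix a2 → S) X =
    !![0, -(X 1 1) ^ 2, 1; 1, 0, 0; 0, 1, 0] := by
  ext i j
  fin_cases i <;> fin_cases j <;> simp [Mx, rf00, rf01, rf02, h]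
  ring

theorem det_Mx (h : X 1 0 = 1) : (Mx (c2 : Ix a2 → S) X).det = 1 := by
  rw [Mx_eq X h, Matrix.det_fin_three]
  simp

theorem adj_Mx (h : X 1 0 = 1) : (Mx (c2 : Ix a2 → S) X).adjugate =
    !![0, 1, 0; 0, 0, 1; 1, 0, (X 1 1) ^ 2] := by
  rw [Mx_eq X h, Matrix.adjugate_fin_three]
  ext i j
  fin_cases i <;> fin_cases j <;> simp

theorem adj_mul (h : X 1 0 = 1) (e : Fin 3 → S) : (Mx (c2 : Ix a2 → S) X).adjugate.mulVec e =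
    ![e 1, e 2, e 0 + (X 1 1) ^ 2 * e 2] := by
  rw [adj_Mx X h]
  ext i
  fin_cases i <;> simp [Matrix.mulVec, dotProduct, Fin.sum_univ_succ]

theorem Y0_eq (h : X 1 0 = 1) : Y0 (c2 : Ix a2 → S) X =
    ![1, 0, X 1 1, -X 1 3, -(2 * X 1 3 - X 1 4 + X 1 2 ^ 2 + X 1 1 ^ 2 * X 1 3)] := by
  have e : (- ![rf (c2 : Ix a2 → S) 0 X 1 (Pi.single 0 1), rf c2 0 X 2 (Pi.single 0 1),
      rf c2 0 X 0 (Pi.single 0 1) + X 1 1 ^ 2 * rf c2 0 X 2 (Pi.single 0 1)]) =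
      ![X 1 1, -X 1 3, -(2 * X 1 3 - X 1 4 + X 1 2 ^ 2 + X 1 1 ^ 2 * X 1 3)] := by
    ext i
    fin_cases i <;> simp [rf00, rf01, rf02, h] <;> ring
  rw [Y0, det_Mx X h, adj_mul X h, e]
  rfl

theorem Y1_eq (h : X 1 0 = 1) : Y1 (c2 : Ix a2 → S) X =
    ![0, 1, -X 1 2, X 1 1, 2 * X 1 3 - X 1 4 + X 1 1 ^ 3] := by
  have e : (- ![rf (c2 : Ix a2 → S) 0 X 1 (Pi.single 1 1), rf c2 0 X 2 (Pi.single 1 1),
      rf c2 0 X 0 (Pi.single 1 1) + X 1 1 ^ 2 * rf c2 0 X 2 (Pi.single 1 1)]) =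
      ![-X 1 2, X 1 1, 2 * X 1 3 - X 1 4 + X 1 1 ^ 3] := by
    ext i
    fin_cases i <;> simp [rf00, rf01, rf02, h] <;> ring
  rw [Y1, det_Mx X h, adj_mul X h, e]
  rfl

theorem yh_eq (h : X 1 0 = 1) (z : S) : yh (c2 : Ix a2 → S) X z =
    ![1, z, X 1 1 - z * X 1 2, -X 1 3 + z * X 1 1,
      -(2 * X 1 3 - X 1 4 + X 1 2 ^ 2 + X 1 1 ^ 2 * X 1 3) +
        z * (2 * X 1 3 - X 1 4 + X 1 1 ^ 3)] := by
  ext i
  rw [yh, Y0_eq X h, Y1_eq X h]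
  fin_cases i <;> simp <;> ring

/-- The first entry of `Nx`. -/
def q1 (y : I 3 → S) : S :=
  y 0 * (4 * y 0 - 4 * y 2 + 4 * y 3 - 2 * y 4) + y 2 * (y 2 + 2 * y 4) +
      y 1 * (-2 * y 3 + 2 * y 4) + y 3 * y 4

/-- The third entry of `Nx`. -/
def q3 (y : I 3 → S) : S := (y 0 - y 1) * (2 * y 0 + y 1)

theorem Nx_eq : Nx (c2 : Ix a2 → S) 1 X =
    !![q1 (X 0), 0, q3 (X 0); -X 0 0, X 0 1, 0; -X 0 1, 0, X 0 0] := by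
  ext i j
  fin_cases i <;> fin_cases j <;> simp [Nx, rf10, rf11, rf12, q1, q3]

theorem det_Nx : (Nx (c2 : Ix a2 → S) 1 X).det =
    q1 (X 0) * X 0 0 * X 0 1 + q3 (X 0) * X 0 1 ^ 2 := by
  rw [Nx_eq X, Matrix.det_fin_three]
  simp
  ring

theorem vh_eq : vh (c2 : Ix a2 → S) 1 X =
    ![-(X 0 0 ^ 3 * X 0 1), -X 0 0 ^ 4, -(X 0 0 ^ 2 * X 0 1 ^ 2),
      q1 (X 0) * X 0 0 * X 0 1 + q3 (X 0) * X 0 1 ^ 2] := by
  have e : (-(Nx (c2 : Ix a2 → S) 1 X).adjugate.mulVec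
      fun r => rf c2 1 X r (Pi.single (Fin.last (3 + 1)) 1)) =
      ![-(X 0 0 ^ 3 * X 0 1), -X 0 0 ^ 4, -(X 0 0 ^ 2 * X 0 1 ^ 2)] := by
    rw [Nx_eq X, Matrix.adjugate_fin_three]
    ext i
    fin_cases i <;> simp [Matrix.mulVec, dotProduct, Fin.sum_univ_succ, rf10, rf11, rf12] <;> ring
  rw [vh, det_Nx X, e]
  ext i
  fin_cases i <;> rfl


theorem xh_eq : xh (c2 : Ix a2 → S) 1 X =
    ![0, -(X 0 0 ^ 3 * X 0 1), -X 0 0 ^ 4, -(X 0 0 ^ 2 * X 0 1 ^ 2),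
      q1 (X 0) * X 0 0 * X 0 1 + q3 (X 0) * X 0 1 ^ 2] := by
  rw [xh, vh_eq]
  rfl

theorem Pf0_eq (v w : I 3 → S) : Pf (c2 : Ix a2 → S) 0 X v w =
    X 1 0 * (-6 * (v 0 * w 4 + w 0 * v 4)) +
    X 1 1 * (8 * v 0 * w 0 - 4 * (v 0 * w 2 + w 0 * v 2) + 2 * v 2 * w 2 +
      4 * (v 0 * w 3 + w 0 * v 3) - 2 * (v 0 * w 4 + w 0 * v 4) + 2 * (v 2 * w 4 + w 2 * v 4) -
      2 * (v 1 * w 3 + w 1 * v 3) + 2 * (v 1 * w 4 + w 1 * v 4) + (v 3 * w 4 + w 3 * v 4)) +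
    X 1 3 * (4 * v 0 * w 0 - (v 0 * w 1 + w 0 * v 1) - 2 * v 1 * w 1) +
      2 * X 1 4 * v 0 * w 0 := by
  have h : Pf (c2 : Ix a2 → S) 0 X v w =
    Mf c2 0 (Function.update X 0 v) (Function.update X 0 w) +
      Mf c2 0 (Function.update X 0 w) (Function.update X 0 v) := rfl
  rw [h, Mf0, Mf0]
  simp
  ring

theorem Pf1_eq (v w : I 3 → S) : Pf (c2 : Ix a2 → S) 1 X v w =
    2 * v 0 * w 0 * X 0 4 - 2 * v 1 * w 1 * X 0 3 +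
      (X 0 0 - X 0 1) * (2 * (v 0 * w 3 + w 0 * v 3) - (v 0 * w 4 + w 0 * v 4)) +
      2 * X 0 0 * v 2 * w 2 := by
  have h : Pf (c2 : Ix a2 → S) 1 X v w =
    Mf c2 1 (Function.update X 1 v) (Function.update X 1 w) +
      Mf c2 1 (Function.update X 1 w) (Function.update X 1 v) := rfl
  rw [h, Mf1, Mf1]
  simp
  ring

theorem De0_eq (ξ : I 3 → S) : De (c2 : Ix a2 → S) 0 1 X ξ =
    ξ 0 * (X 0 0 * (-6 * X 0 4)) + ξ 1 * q1 (X 0) + ξ 3 * q3 (X 0) + ξ 4 * X 0 0 ^ 2 := by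
  have h : De (c2 : Ix a2 → S) 0 1 X ξ = Mf c2 0 (Function.update X 1 ξ) X + 0 := rfl
  rw [h, Mf0]
  simp [q1, q3]
  ring

theorem De1_eq (ξ : I 3 → S) : De (c2 : Ix a2 → S) 1 1 X ξ =
    2 * X 1 0 * ξ 0 * X 0 4 - 2 * X 1 1 * ξ 1 * X 0 3 +
      (X 0 0 - X 0 1) * (X 1 0 * (2 * ξ 3 - ξ 4) + ξ 0 * (2 * X 1 3 - X 1 4)) +
      2 * X 0 0 * X 1 2 * ξ 2 := by
  have h : De (c2 : Ix a2 → S) 1 1 X ξ = Mf c2 1 (Function.update X 1 ξ) X +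
    Mf c2 1 X (Function.update X 1 ξ) := rfl
  rw [h, Mf1, Mf1]
  simp
  ring

theorem De2_eq (ξ : I 3 → S) : De (c2 : Ix a2 → S) 2 1 X ξ =
    ξ 0 * X 0 2 - ξ 1 * X 0 0 + ξ 2 * X 0 1 := by
  have h : De (c2 : Ix a2 → S) 2 1 X ξ = Mf c2 2 (Function.update X 1 ξ) X + 0 := rfl
  rw [h, Mf2]
  simp

theorem De3_eq (ξ : I 3 → S) : De (c2 : Ix a2 → S) 3 1 X ξ =
    ξ 0 * X 0 3 - ξ 1 * X 0 1 + ξ 3 * X 0 0 := by
  have h : De (c2 : Ix a2 → S) 3 1 X ξ = Mf c2 3 (Function.update X 1 ξ) X + 0 := rfl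
  rw [h, Mf3]
  simp

theorem vp_eq (h : X 1 0 = 1) (e : Fin 3 → S) : vp (c2 : Ix a2 → S) X e =
    ![0, 0, -e 1, -e 2, -(e 0 + (X 1 1) ^ 2 * e 2)] := by
  rw [vp, adj_mul X h]
  ext i
  fin_cases i <;> rfl

end

end Pool.Agent.Helper88.N4
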