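import Mathlib
import Pool.Agent.Helper88.N4.Ex2Fml

/-!
# The example of type 2: closed forms in scalars
-/

set_option autoImplicit false

namespace Pool.Agent.Helper88.N4

open Pool.Agent.Helper64.HK Pool.Agent.Helper24.HK Pool.Agent.Helper16.N4
open Pool.Agent.Helper28.HN (I aff)

section

variable {S : Type*} [CommRing S]

/-- The coordinates of `yh`. -/
def sy2 (u1 u2 z : S) : S := u1 - z * u2
/-- The coordinates of `yh`. -/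
def sy3 (u1 u3 z : S) : S := -u3 + z * u1
/-- The coordinates of `yh`. -/
def sy4 (u1 u2 u3 u4 z : S) : S :=
  -(2 * u3 - u4 + u2 ^ 2 + u1 ^ 2 * u3) + z * (2 * u3 - u4 + u1 ^ 3)

/-- The first entry of `Nx`. -/
def sq1 (u1 u2 u3 u4 z : S) : S :=
  4 - 4 * sy2 u1 u2 z + 4 * sy3 u1 u3 z - 2 * sy4 u1 u2 u3 u4 z +
    sy2 u1 u2 z * (sy2 u1 u2 z + 2 * sy4 u1 u2 u3 u4 z) +
    z * (-2 * sy3 u1 u3 z + 2 * sy4 u1 u2 u3 u4 z) + sy3 u1 u3 z * sy4 u1 u2 u3 u4 z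

/-- The last coordinate of `xh`. -/
def sv4 (u1 u2 u3 u4 z : S) : S := sq1 u1 u2 u3 u4 z * z + (1 - z) * (2 + z) * z ^ 2

/-- The linear coefficient. -/
def sps (u1 u2 u3 u4 z : S) : S :=
  2 * u1 * z * sy3 u1 u3 z - (1 - z) * (2 * z ^ 2 + sv4 u1 u2 u3 u4 z) - 2 * u2

/-- The quadratic coefficient. -/
def ska (u1 u3 z : S) : S := 2 - 2 * z ^ 2 * sy3 u1 u3 z

/-- The factor. -/
def sth (u1 u2 u3 z : S) : S := 6 - u1 * (-2 + 2 * sy2 u1 u2 z + 2 * z + sy3 u1 u3 z)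

/-- The leading coefficient of `Fh`. -/
def sA (u1 u2 u3 u4 : S) : S :=
  2 * (u1 * (u2 ^ 2 - 2 * u2 * (2 * u3 - u4 + u1 ^ 3) - 2 * u1 + 2 * (2 * u3 - u4 + u1 ^ 3) +
    u1 * (2 * u3 - u4 + u1 ^ 3)) - u3)

/-- The last coordinate of `Y0`. -/
def s40 (u1 u2 u3 u4 : S) : S := -(2 * u3 - u4 + u2 ^ 2 + u1 ^ 2 * u3)

/-- The last coordinate of `Y1`. -/
def s41 (u1 u3 u4 : S) : S := 2 * u3 - u4 + u1 ^ 3

/-- The middle coefficient of `Fh`. -/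
def sB (u1 u2 u3 u4 : S) : S :=
  -6 * s41 u1 u3 u4 + u1 * (4 * u2 - 2 * u1 * u2 + 4 * u1 - 2 * s41 u1 u3 u4 +
      2 * (u1 * s41 u1 u3 u4 - u2 * s40 u1 u2 u3 u4) + 2 * u3 + 2 * s40 u1 u2 u3 u4 +
      (-u3 * s41 u1 u3 u4 + u1 * s40 u1 u2 u3 u4)) - u3

/-- The constant coefficient of `Fh`. -/
def sC (u1 u2 u3 u4 : S) : S :=
  -12 * s40 u1 u2 u3 u4 + u1 * (8 - 8 * u1 + 2 * u1 ^ 2 - 8 * u3 - 4 * s40 u1 u2 u3 u4 +
      4 * u1 * s40 u1 u2 u3 u4 - 2 * u3 * s40 u1 u2 u3 u4) + 4 * u3 + 2 * u4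

/-- The first derivative. -/
def se0 (u1 u2 u3 a b c d z : S) : S :=
  -2 * u1 * a * sy3 u1 u3 z + (1 - z) * (2 * c - d) + 2 * u2 * b

/-- The second derivative. -/
def se1 (a b z : S) : S := -a + b * z

/-- The third derivative. -/
def se2 (a c z : S) : S := -a * z + c

/-- The last coordinate of the vertical part. -/
def sw4 (u1 u2 u3 a b c d z : S) : S := -(se0 u1 u2 u3 a b c d z + u1 ^ 2 * se2 a c z)

/-- The derivative of `Fh` in the direction `(0, a, b, c, d)`. -/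
def sqh (u1 u2 u3 u4 a b c d z : S) : S :=
  2 * (a * sq1 u1 u2 u3 u4 z + c * ((1 - z) * (2 + z)) + d +
    (-6 * sw4 u1 u2 u3 a b c d z + u1 * (4 * se1 a b z - 2 * sy2 u1 u2 z * se1 a b z -
      4 * se2 a c z - 2 * sw4 u1 u2 u3 a b c d z +
      2 * (sy2 u1 u2 z * sw4 u1 u2 u3 a b c d z - se1 a b z * sy4 u1 u2 u3 u4 z) +
      2 * z * se2 a c z + 2 * z * sw4 u1 u2 u3 a b c d z +
      (sy3 u1 u3 z * sw4 u1 u2 u3 a b c d z - se2 a c z * sy4 u1 u2 u3 u4 z))))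

variable (X : Fin (1 + 1) → I 3 → S)

theorem yh_s (h : X 1 0 = 1) (z : S) : yh (c2 : Ix a2 → S) X z =
    ![1, z, sy2 (X 1 1) (X 1 2) z, sy3 (X 1 1) (X 1 3) z,
      sy4 (X 1 1) (X 1 2) (X 1 3) (X 1 4) z] := yh_eq X h z

theorem Xz0 (h : X 1 0 = 1) (z : S) : Xz (c2 : Ix a2 → S) X z 0 =
    ![1, z, sy2 (X 1 1) (X 1 2) z, sy3 (X 1 1) (X 1 3) z,
      sy4 (X 1 1) (X 1 2) (X 1 3) (X 1 4) z] := by
  rw [Xz, Function.update_self, yh_s X h]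

theorem Xz1 (z : S) : Xz (c2 : Ix a2 → S) X z 1 = X 1 := by
  rw [Xz, Function.update_of_ne (by decide)]

theorem vh_s (h : X 1 0 = 1) (z : S) : vh (c2 : Ix a2 → S) 1 (Xz c2 X z) =
    ![-z, -1, -z ^ 2, sv4 (X 1 1) (X 1 2) (X 1 3) (X 1 4) z] := by
  rw [vh_eq, Xz0 X h]
  ext i
  fin_cases i
  · simp
  · simp
  · simp
  · simp [q1, q3, sv4, sq1]

theorem xh_s (h : X 1 0 = 1) (z : S) : xh (c2 : Ix a2 → S) 1 (Xz c2 X z) =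
    ![0, -z, -1, -z ^ 2, sv4 (X 1 1) (X 1 2) (X 1 3) (X 1 4) z] := by
  rw [xh, vh_s X h]
  rfl

theorem Nx_s (h : X 1 0 = 1) (z : S) : (Nx (c2 : Ix a2 → S) 1 (Xz c2 X z)).det =
    sv4 (X 1 1) (X 1 2) (X 1 3) (X 1 4) z := by
  have := congrFun (vh_s X h z) 3
  exact this

theorem psh_s (h : X 1 0 = 1) (z : S) : psh (c2 : Ix a2 → S) 1 X z =
    sps (X 1 1) (X 1 2) (X 1 3) (X 1 4) z := by
  rw [psh, Pf1_eq, xh_s X h, Xz0 X h]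
  simp [h, sps]
  ring

theorem kah_s (h : X 1 0 = 1) (z : S) : kah (c2 : Ix a2 → S) 1 X z =
    ska (X 1 1) (X 1 3) z := by
  rw [kah, Pf1_eq, xh_s X h, Xz0 X h]
  simp [ska]
  ring

theorem th_s (h : X 1 0 = 1) (z : S) : th (c2 : Ix a2 → S) 1 X z =
    sth (X 1 1) (X 1 2) (X 1 3) z := by
  have h1 : th (c2 : Ix a2 → S) 1 X z = 0 + Pf c2 0 X (yh c2 X z) (vp c2 X ![1, 0, 0]) := by
    have h2 : (![1, 0, 0] : Fin 3 → S) =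
        fun r => if (a2 0).succAbove r = a2 1 then 1 else 0 := by
      ext i
      fin_cases i <;> rfl
    rw [h2]
    rfl
  rw [h1, vp_eq X h, yh_s X h, Pf0_eq]
  simp [h, sth]
  ring

theorem Ah_s (h : X 1 0 = 1) : Ah (c2 : Ix a2 → S) X = sA (X 1 1) (X 1 2) (X 1 3) (X 1 4) := by
  rw [Ah, Y1_eq X h, Pf0_eq]
  simp [h, sA]
  ring

theorem Bh_s (h : X 1 0 = 1) : Bh (c2 : Ix a2 → S) X = sB (X 1 1) (X 1 2) (X 1 3) (X 1 4) := by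
  rw [Bh, Y1_eq X h, Y0_eq X h, Pf0_eq]
  simp [h, sB, s40, s41]
  ring

theorem Ch_s (h : X 1 0 = 1) : Ch (c2 : Ix a2 → S) X = sC (X 1 1) (X 1 2) (X 1 3) (X 1 4) := by
  rw [Ch, Y0_eq X h, Pf0_eq]
  simp [h, sC, s40]
  ring

theorem Fh_s (h : X 1 0 = 1) (z : S) : Fh (c2 : Ix a2 → S) X z =
    sA (X 1 1) (X 1 2) (X 1 3) (X 1 4) * z ^ 2 + 2 * sB (X 1 1) (X 1 2) (X 1 3) (X 1 4) * z +
      sC (X 1 1) (X 1 2) (X 1 3) (X 1 4) := by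
  rw [Fh, yh_eq X h, Pf0_eq]
  simp [h, sA, sB, sC, s40, s41]
  ring

theorem qh_s (h : X 1 0 = 1) (a b c d z : S) :
    qh (c2 : Ix a2 → S) 1 X ![0, a, b, c, d] z =
      sqh (X 1 1) (X 1 2) (X 1 3) (X 1 4) a b c d z := by
  obtain ⟨ξ, hξ⟩ : ∃ ξ : I 3 → S, ξ = ![0, a, b, c, d] := ⟨_, rfl⟩
  have x0 : ξ 0 = 0 := by rw [hξ]; rfl
  have x1 : ξ 1 = a := by rw [hξ]; rfl
  have x2 : ξ 2 = b := by rw [hξ]; rfl
  have x3 : ξ 3 = c := by rw [hξ]; rfl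
  have x4 : ξ 4 = d := by rw [hξ]; rfl
  rw [← hξ]
  have h1 : qh (c2 : Ix a2 → S) 1 X ξ z = 2 * ((Mx c2 X).det * De c2 0 1 (Xz c2 X z) ξ +
      Pf c2 0 X (yh c2 X z) (vp c2 X ![De c2 1 1 (Xz c2 X z) ξ, De c2 2 1 (Xz c2 X z) ξ,
        De c2 3 1 (Xz c2 X z) ξ])) := by
    have h2 : (![De c2 1 1 (Xz c2 X z) ξ, De c2 2 1 (Xz c2 X z) ξ,
        De c2 3 1 (Xz c2 X z) ξ] : Fin 3 → S) =
        fun r => De c2 ((a2 0).succAbove r) 1 (Xz c2 X z) ξ := by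
      ext i
      fin_cases i <;> rfl
    rw [h2]
    rfl
  rw [h1, det_Mx X h, vp_eq X h, De0_eq, De1_eq, De2_eq, De3_eq, yh_s X h, Xz0 X h, Xz1, Pf0_eq]
  simp [h, x0, x1, x2, x3, x4, sqh, q1, q3, sq1, se0, se1, se2, sw4]
  ring

end

end Pool.Agent.Helper88.N4
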