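import Mathlib
import Pool.Agent.Helper88.N4.Ex2Scl

/-!
# The example of type 2: the point
-/

set_option autoImplicit false

namespace Pool.Agent.Helper88.N4

open Pool.Agent.Helper64.HK Pool.Agent.Helper24.HK Pool.Agent.Helper16.N4
open Pool.Agent.Helper28.HN (I aff)

/-- The choices. -/
def s2 : Sel4 1 3 where
  S := fun e => (0, e)
  hS := fun e e' h => (Prod.mk.inj h).2
  f := 0
  y := 3
  j := (0, 3)
  m' := (0, 0)
  l := (0, 1)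
  hjm := by decide
  hml := by decide
  hlj := by decide

/-- The point. -/
def x2 : Un4 1 3 → ℚ
  | .u _ => 0
  | .z q => (![-2, -1, 2, 1] : Fin 4 → ℚ) q.2
  | .d _ => 0
  | .t r => (![-2, 2, -1, 1] : Fin 4 → ℚ) r
  | .w r => (![-2, 0, 3, 1] : Fin 4 → ℚ) r

section gen

variable {S : Type*} [CommRing S] (x : Un4 1 3 → S)

theorem pt0 : pt (rd s2 x) 1 0 = 1 := rfl
theorem pt1 : pt (rd s2 x) 1 1 = x (.u (0, 0)) := rfl
theorem pt2 : pt (rd s2 x) 1 2 = x (.u (0, 1)) := rfl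
theorem pt3 : pt (rd s2 x) 1 3 = x (.u (0, 2)) := rfl
theorem pt4 : pt (rd s2 x) 1 4 = x (.u (0, 3)) := rfl

theorem pl0 (t : S) : pl s2 x t 1 0 = 1 := rfl
theorem pl1 (t : S) : pl s2 x t 1 1 = x (.u (0, 0)) + t := by
  have : pl s2 x t 1 1 = x (.u (0, 0)) + if (0 : Fin 1) = s2.f then t * 1 else 0 := rfl
  rw [this, if_pos (by decide), mul_one]
theorem pl2 (t : S) : pl s2 x t 1 2 = x (.u (0, 1)) + t * x (.d 0) := by
  have : pl s2 x t 1 2 = x (.u (0, 1)) + if (0 : Fin 1) = s2.f then t * x (.d 0) else 0 := rfl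
  rw [this, if_pos (by decide)]
theorem pl3 (t : S) : pl s2 x t 1 3 = x (.u (0, 2)) + t * x (.d 1) := by
  have : pl s2 x t 1 3 = x (.u (0, 2)) + if (0 : Fin 1) = s2.f then t * x (.d 1) else 0 := rfl
  rw [this, if_pos (by decide)]
theorem pl4 (t : S) : pl s2 x t 1 4 = x (.u (0, 3)) + t * x (.d 2) := by
  have : pl s2 x t 1 4 = x (.u (0, 3)) + if (0 : Fin 1) = s2.f then t * x (.d 2) else 0 := rfl
  rw [this, if_pos (by decide)]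

theorem dr_eq : dr x = ![0, 1, x (.d 0), x (.d 1), x (.d 2)] := by
  ext i
  fin_cases i <;> rfl

theorem xq_eq (q : Fin 1 × Fin 4) : xq (c2 : Ix a2 → S) s2 x q =
    ![0, -x (.z q), -1, -x (.z q) ^ 2, sv4 (x (.u (0, 0))) (x (.u (0, 1))) (x (.u (0, 2)))
      (x (.u (0, 3))) (x (.z q))] := by
  obtain ⟨l, i⟩ := q
  obtain rfl : l = 0 := Subsingleton.elim _ _
  exact xh_s _ (pt0 x) _

theorem eA : Eqn4 (c2 : Ix a2 → S) s2 x (.u (0, 0)) = sA (x (.u (0, 0))) (x (.u (0, 1)))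
    (x (.u (0, 2))) (x (.u (0, 3))) := by
  have : Eqn4 (c2 : Ix a2 → S) s2 x (.u (0, 0)) = Ah c2 (pt (rd s2 x)) := by
    simp [Eqn4, s2]
  rw [this, Ah_s _ (pt0 x), pt1, pt2, pt3, pt4]

/-- The form on the line. -/
def sF (u1 u2 u3 u4 z : S) : S :=
  sA u1 u2 u3 u4 * z ^ 2 + 2 * sB u1 u2 u3 u4 * z + sC u1 u2 u3 u4

theorem eF : Eqn4 (c2 : Ix a2 → S) s2 x (.u (0, 1)) = sF (x (.u (0, 0))) (x (.u (0, 1)))
    (x (.u (0, 2))) (x (.u (0, 3))) 3 := by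
  have : Eqn4 (c2 : Ix a2 → S) s2 x (.u (0, 1)) = Fh c2 (pt (rd s2 x)) 3 := by
    simp [Eqn4, s2]
  rw [this, Fh_s _ (pt0 x), pt1, pt2, pt3, pt4, sF]

theorem eG : Eqn4 (c2 : Ix a2 → S) s2 x (.u (0, 2)) = sF (x (.u (0, 0))) (x (.u (0, 1)))
    (x (.u (0, 2))) (x (.u (0, 3))) (x (.z (0, 3))) := by
  have : Eqn4 (c2 : Ix a2 → S) s2 x (.u (0, 2)) = Fh c2 (pt (rd s2 x)) (x (.z (0, 3))) := by
    simp [Eqn4, s2]
  rw [this, Fh_s _ (pt0 x), pt1, pt2, pt3, pt4, sF]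

theorem eq' : Eqn4 (c2 : Ix a2 → S) s2 x (.u (0, 3)) = sqh (x (.u (0, 0))) (x (.u (0, 1)))
    (x (.u (0, 2))) (x (.u (0, 3))) (-x (.z (0, 0))) (-1) (-x (.z (0, 0)) ^ 2)
      (sv4 (x (.u (0, 0))) (x (.u (0, 1))) (x (.u (0, 2))) (x (.u (0, 3))) (x (.z (0, 0))))
      (x (.z (0, 3))) := by
  have : Eqn4 (c2 : Ix a2 → S) s2 x (.u (0, 3)) =
      qh c2 1 (pt (rd s2 x)) (xq c2 s2 x (0, 0)) (x (.z (0, 3))) := by
    simp [Eqn4, s2]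
  rw [this, xq_eq, qh_s _ (pt0 x), pt1, pt2, pt3, pt4]

theorem eP (i : Fin 4) : Eqn4 (c2 : Ix a2 → S) s2 x (.z (0, i)) = sps (x (.u (0, 0)))
    (x (.u (0, 1))) (x (.u (0, 2))) (x (.u (0, 3))) (x (.z (0, i))) := by
  have : Eqn4 (c2 : Ix a2 → S) s2 x (.z (0, i)) =
      psh c2 1 (pt (rd s2 x)) (x (.z (0, i))) := rfl
  rw [this, psh_s _ (pt0 x), pt1, pt2, pt3, pt4]

theorem eQ (i : Fin 3) : Eqn4 (c2 : Ix a2 → S) s2 x (.d i) =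
    sqh (x (.u (0, 0)) + x (.t i.succ)) (x (.u (0, 1)) + x (.t i.succ) * x (.d 0))
      (x (.u (0, 2)) + x (.t i.succ) * x (.d 1)) (x (.u (0, 3)) + x (.t i.succ) * x (.d 2))
      1 (x (.d 0)) (x (.d 1)) (x (.d 2)) (x (.w i.succ)) := by
  have : Eqn4 (c2 : Ix a2 → S) s2 x (.d i) =
      qh c2 1 (pl s2 x (x (.t i.succ))) (dr x) (x (.w i.succ)) := rfl
  rw [this, dr_eq, qh_s _ (pl0 x _), pl1, pl2, pl3, pl4]

theorem eT (r : Fin 4) : Eqn4 (c2 : Ix a2 → S) s2 x (.t r) =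
    sA (x (.u (0, 0)) + x (.t r)) (x (.u (0, 1)) + x (.t r) * x (.d 0))
      (x (.u (0, 2)) + x (.t r) * x (.d 1)) (x (.u (0, 3)) + x (.t r) * x (.d 2)) * x (.w r) +
    sB (x (.u (0, 0)) + x (.t r)) (x (.u (0, 1)) + x (.t r) * x (.d 0))
      (x (.u (0, 2)) + x (.t r) * x (.d 1)) (x (.u (0, 3)) + x (.t r) * x (.d 2)) := by
  have : Eqn4 (c2 : Ix a2 → S) s2 x (.t r) =
      Ah c2 (pl s2 x (x (.t r))) * x (.w r) + Bh c2 (pl s2 x (x (.t r))) := rfl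
  rw [this, Ah_s _ (pl0 x _), Bh_s _ (pl0 x _), pl1, pl2, pl3, pl4]

theorem eW (r : Fin 4) : Eqn4 (c2 : Ix a2 → S) s2 x (.w r) =
    sB (x (.u (0, 0)) + x (.t r)) (x (.u (0, 1)) + x (.t r) * x (.d 0))
      (x (.u (0, 2)) + x (.t r) * x (.d 1)) (x (.u (0, 3)) + x (.t r) * x (.d 2)) * x (.w r) +
    sC (x (.u (0, 0)) + x (.t r)) (x (.u (0, 1)) + x (.t r) * x (.d 0))
      (x (.u (0, 2)) + x (.t r) * x (.d 1)) (x (.u (0, 3)) + x (.t r) * x (.d 2)) := by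
  have : Eqn4 (c2 : Ix a2 → S) s2 x (.w r) =
      Bh c2 (pl s2 x (x (.t r))) * x (.w r) + Ch c2 (pl s2 x (x (.t r))) := rfl
  rw [this, Bh_s _ (pl0 x _), Ch_s _ (pl0 x _), pl1, pl2, pl3, pl4]

end gen

theorem xu (q : Fin 1 × Fin 4) : x2 (.u q) = 0 := rfl
theorem xd (i : Fin 3) : x2 (.d i) = 0 := rfl
theorem xz0 : x2 (.z (0, 0)) = -2 := rfl
theorem xz1 : x2 (.z (0, 1)) = -1 := rfl
theorem xz2 : x2 (.z (0, 2)) = 2 := rfl
theorem xz3 : x2 (.z (0, 3)) = 1 := rfl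
theorem xt0 : x2 (.t 0) = -2 := rfl
theorem xt1 : x2 (.t 1) = 2 := rfl
theorem xt2 : x2 (.t 2) = -1 := rfl
theorem xt3 : x2 (.t 3) = 1 := rfl
theorem xw0 : x2 (.w 0) = -2 := rfl
theorem xw1 : x2 (.w 1) = 0 := rfl
theorem xw2 : x2 (.w 2) = 3 := rfl
theorem xw3 : x2 (.w 3) = 1 := rfl

theorem h1_2 (i : Un4 1 3) : Eqn4 (c2 : Ix a2 → ℚ) s2 x2 i = 0 := by
  match i with
  | .u (0, 0) => rw [eA, xu, xu, xu, xu]; norm_num [sA]
  | .u (0, 1) => rw [eF, xu, xu, xu, xu]; norm_num [sA, sB, sC, sF, s40, s41]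
  | .u (0, 2) => rw [eG, xu, xu, xu, xu]; norm_num [sA, sB, sC, sF, s40, s41]
  | .u (0, 3) =>
    rw [eq', xu, xu, xu, xu, xz3, xz0]
    norm_num [sqh, se0, se1, se2, sw4, sq1, sy2, sy3, sy4, sv4]
  | .z (0, 0) => rw [eP, xu, xu, xu, xu, xz0]; norm_num [sps, sv4, sq1, sy2, sy3, sy4]
  | .z (0, 1) => rw [eP, xu, xu, xu, xu, xz1]; norm_num [sps, sv4, sq1, sy2, sy3, sy4]
  | .z (0, 2) => rw [eP, xu, xu, xu, xu, xz2]; norm_num [sps, sv4, sq1, sy2, sy3, sy4]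
  | .z (0, 3) => rw [eP, xu, xu, xu, xu, xz3]; norm_num [sps, sv4, sq1, sy2, sy3, sy4]
  | .d 0 =>
    have : Fin.succ (0 : Fin 3) = 1 := rfl
    rw [eQ, xu, xu, xu, xu, this, xt1, xw1, xd, xd, xd]
    norm_num [sqh, se0, se1, se2, sw4, sq1, sy2, sy3, sy4, sv4]
  | .d 1 =>
    have : Fin.succ (1 : Fin 3) = 2 := rfl
    rw [eQ, xu, xu, xu, xu, this, xt2, xw2, xd, xd, xd]
    norm_num [sqh, se0, se1, se2, sw4, sq1, sy2, sy3, sy4, sv4]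
  | .d 2 =>
    have : Fin.succ (2 : Fin 3) = 3 := rfl
    rw [eQ, xu, xu, xu, xu, this, xt3, xw3, xd, xd, xd]
    norm_num [sqh, se0, se1, se2, sw4, sq1, sy2, sy3, sy4, sv4]
  | .t 0 => rw [eT, xu, xu, xu, xu, xt0, xw0, xd, xd, xd]; norm_num [sA, sB, s40, s41]
  | .t 1 => rw [eT, xu, xu, xu, xu, xt1, xw1, xd, xd, xd]; norm_num [sA, sB, s40, s41]
  | .t 2 => rw [eT, xu, xu, xu, xu, xt2, xw2, xd, xd, xd]; norm_num [sA, sB, s40, s41]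
  | .t 3 => rw [eT, xu, xu, xu, xu, xt3, xw3, xd, xd, xd]; norm_num [sA, sB, s40, s41]
  | .w 0 => rw [eW, xu, xu, xu, xu, xt0, xw0, xd, xd, xd]; norm_num [sC, sB, s40, s41]
  | .w 1 => rw [eW, xu, xu, xu, xu, xt1, xw1, xd, xd, xd]; norm_num [sC, sB, s40, s41]
  | .w 2 => rw [eW, xu, xu, xu, xu, xt2, xw2, xd, xd, xd]; norm_num [sC, sB, s40, s41]
  | .w 3 => rw [eW, xu, xu, xu, xu, xt3, xw3, xd, xd, xd]; norm_num [sC, sB, s40, s41]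

end Pool.Agent.Helper88.N4
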