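import Mathlib
import Pool.Agent.Helper88.N4.Ex2Val

/-!
# The example of type 2: the Jacobian
-/

set_option autoImplicit false

namespace Pool.Agent.Helper88.N4

open Pool.Agent.Helper64.HK Pool.Agent.Helper24.HK Pool.Agent.Helper16.N4
open Pool.Agent.Helper28.HN (I aff)
open Pool.Agent.Helper60.HN (dl dl_fst dl_snd dl_ext dl_add dl_mul dl_sub dl_eq_zero dl_cast dl_one)
open Pool.Agent.Helper76.N4 (dl_neg dl_ofNat)

theorem dl_sq (a b : ℚ) : dl a b ^ 2 = dl (a * a) (2 * a * b) := by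
  rw [pow_two, dl_mul]
  congr 1
  ring

theorem dl_cb (a b : ℚ) : dl a b ^ 3 = dl (a * a * a) (3 * (a * a) * b) := by
  rw [pow_succ, dl_sq, dl_mul]
  congr 1
  ring

theorem jac2 (v : Un4 1 3 → ℚ) (h : ∀ i, Eqn4 (c2 : Ix a2 → DualNumber ℚ) s2
    (fun j => dl (x2 j) (v j)) i = 0) : v = 0 := by
  have hA := h (.u (0, 0))
  rw [eA] at hA
  simp only [xu, sA, dl_add, dl_mul, dl_sub, dl_neg, dl_ofNat, dl_one, dl_sq, dl_cb] at hA
  have hA := (dl_eq_zero.1 hA).2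
  have u3 : v (.u (0, 2)) = 0 := by linear_combination (-1 / 2) * hA
  have hF := h (.u (0, 1))
  rw [eF] at hF
  simp only [xu, sF, sA, sB, sC, s40, s41, dl_add, dl_mul, dl_sub, dl_neg, dl_ofNat, dl_one,
    dl_sq, dl_cb] at hF
  have hF := (dl_eq_zero.1 hF).2
  have eF : 8 * v (.u (0, 0)) - 68 * v (.u (0, 2)) + 26 * v (.u (0, 3)) = 0 := by
    linear_combination hF
  have hG := h (.u (0, 2))
  rw [eG] at hG
  simp only [xu, xz3, sF, sA, sB, sC, s40, s41, dl_add, dl_mul, dl_sub, dl_neg, dl_ofNat, dl_one,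
    dl_sq, dl_cb] at hG
  have hG := (dl_eq_zero.1 hG).2
  have eG : 8 * v (.u (0, 0)) + 2 * v (.u (0, 3)) = 0 := by
    linear_combination hG
  have u4 : v (.u (0, 3)) = 0 := by linear_combination (eF - eG + 68 * u3) / 24
  have u1 : v (.u (0, 0)) = 0 := by linear_combination (eG - 2 * u4) / 8
  have hp0 := h (.z (0, 0))
  rw [eP] at hp0
  simp only [xu, xz0, sps, sv4, sq1, sy2, sy3, sy4, dl_add, dl_mul, dl_sub, dl_neg, dl_ofNat,
    dl_one, dl_sq, dl_cb] at hp0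
  have hp0 := (dl_eq_zero.1 hp0).2
  have ep0 : -120 * v (.u (0, 0)) - 50 * v (.u (0, 1)) + 168 * v (.u (0, 2)) -
      108 * v (.u (0, 3)) - 24 * v (.z (0, 0)) = 0 := by
    linear_combination hp0
  have hp3 := h (.z (0, 3))
  rw [eP] at hp3
  simp only [xu, xz3, sps, sv4, sq1, sy2, sy3, sy4, dl_add, dl_mul, dl_sub, dl_neg, dl_ofNat,
    dl_one, dl_sq, dl_cb] at hp3
  have hp3 := (dl_eq_zero.1 hp3).2
  have ep3 : -2 * v (.u (0, 1)) + 6 * v (.z (0, 3)) = 0 := by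
    linear_combination hp3
  have hq := h (.u (0, 3))
  rw [eq'] at hq
  simp only [xu, xz0, xz3, sqh, se0, se1, se2, sw4, sv4, sq1, sy2, sy3, sy4, dl_add, dl_mul, dl_sub,
    dl_neg, dl_ofNat, dl_one, dl_sq, dl_cb] at hq
  have hq := (dl_eq_zero.1 hq).2
  have eq : 72 * v (.u (0, 0)) + 24 * v (.u (0, 1)) - 120 * v (.u (0, 2)) + 72 * v (.u (0, 3)) +
      24 * v (.z (0, 0)) + 24 * v (.z (0, 3)) = 0 := by
    linear_combination hq
  have u2 : v (.u (0, 1)) = 0 := by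
    linear_combination (-1 / 18) * eq - (1 / 18) * ep0 + (2 / 9) * ep3 - (8 / 3) * u1 +
      (8 / 3) * u3 - 2 * u4
  have z0 : v (.z (0, 0)) = 0 := by
    linear_combination (-1 / 24) * ep0 - 5 * u1 - (25 / 12) * u2 + 7 * u3 - (9 / 2) * u4
  have z3 : v (.z (0, 3)) = 0 := by
    linear_combination (1 / 6) * ep3 + (1 / 3) * u2
  have hp1 := h (.z (0, 1))
  rw [eP] at hp1
  simp only [xu, xz1, sps, sv4, sq1, sy2, sy3, sy4, dl_add, dl_mul, dl_sub, dl_neg, dl_ofNat,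
    dl_one, dl_sq, dl_cb] at hp1
  have hp1 := (dl_eq_zero.1 hp1).2
  have z1 : v (.z (0, 1)) = 0 := by
    linear_combination (1 / 6) * hp1 + (10 / 3) * u1 + (5 / 3) * u2 - (10 / 3) * u3 + (8 / 3) * u4
  have hp2 := h (.z (0, 2))
  rw [eP] at hp2
  simp only [xu, xz2, sps, sv4, sq1, sy2, sy3, sy4, dl_add, dl_mul, dl_sub, dl_neg, dl_ofNat,
    dl_one, dl_sq, dl_cb] at hp2
  have hp2 := (dl_eq_zero.1 hp2).2
  have z2 : v (.z (0, 2)) = 0 := by
    linear_combination (-1 / 24) * hp2 - (1 / 3) * u1 + (7 / 12) * u2 + (1 / 3) * u3 - (1 / 6) * u4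
  have hs0 : Fin.succ (0 : Fin 3) = 1 := rfl
  have hs1 : Fin.succ (1 : Fin 3) = 2 := rfl
  have hs2 : Fin.succ (2 : Fin 3) = 3 := rfl
  have q1 := h (.d 0)
  rw [eQ, hs0] at q1
  simp only [xu, xd, xt1, xw1, sqh, se0, se1, se2, sw4, sv4, sq1, sy2, sy3, sy4, dl_add,
    dl_mul, dl_sub, dl_neg, dl_ofNat, dl_one, dl_sq, dl_cb] at q1
  have q1 := (dl_eq_zero.1 q1).2
  have eq1 : 8 * v (.u (0, 0)) - 64 * v (.u (0, 2)) + 12 * v (.u (0, 3)) - 116 * v (.d 1) +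
      22 * v (.d 2) + 8 * v (.t 1) + 80 * v (.w 1) = 0 := by
    linear_combination q1
  have q2 := h (.d 1)
  rw [eQ, hs1] at q2
  simp only [xu, xd, xt2, xw2, sqh, se0, se1, se2, sw4, sv4, sq1, sy2, sy3, sy4, dl_add,
    dl_mul, dl_sub, dl_neg, dl_ofNat, dl_one, dl_sq, dl_cb] at q2
  have q2 := (dl_eq_zero.1 q2).2
  have eq2 : -148 * v (.u (0, 0)) + 192 * v (.u (0, 1)) - 28 * v (.u (0, 2)) +
      24 * v (.u (0, 3)) - 264 * v (.d 0) - 32 * v (.d 1) - 2 * v (.d 2) - 148 * v (.t 2) -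
      4 * v (.w 2) = 0 := by
    linear_combination q2
  have q3 := h (.d 2)
  rw [eQ, hs2] at q3
  simp only [xu, xd, xt3, xw3, sqh, se0, se1, se2, sw4, sv4, sq1, sy2, sy3, sy4, dl_add,
    dl_mul, dl_sub, dl_neg, dl_ofNat, dl_one, dl_sq, dl_cb] at q3
  have q3 := (dl_eq_zero.1 q3).2
  have eq3 : 52 * v (.u (0, 0)) - 16 * v (.u (0, 1)) - 12 * v (.u (0, 2)) - 16 * v (.d 0) -
      12 * v (.d 1) + 2 * v (.d 2) + 52 * v (.t 3) + 20 * v (.w 3) = 0 := by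
    linear_combination q3
  have t0 := h (.t 0)
  rw [eT] at t0
  simp only [xu, xd, xt0, xw0, sA, sB, s40, s41, dl_add, dl_mul, dl_sub, dl_neg,
    dl_ofNat, dl_one, dl_sq, dl_cb] at t0
  have t0 := (dl_eq_zero.1 t0).2
  have et0 : 40 * v (.u (0, 0)) + 112 * v (.u (0, 1)) - 5 * v (.u (0, 2)) - 6 * v (.u (0, 3)) -
      224 * v (.d 0) + 10 * v (.d 1) + 12 * v (.d 2) + 40 * v (.t 0) - 16 * v (.w 0) = 0 := by
    linear_combination t0
  have w0 := h (.w 0)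
  rw [eW] at w0
  simp only [xu, xd, xt0, xw0, sB, sC, s40, s41, dl_add, dl_mul, dl_sub, dl_neg,
    dl_ofNat, dl_one, dl_sq, dl_cb] at w0
  have w0 := (dl_eq_zero.1 w0).2
  have ew0 : -208 * v (.u (0, 0)) + 32 * v (.u (0, 1)) - 34 * v (.u (0, 2)) + 26 * v (.u (0, 3)) -
      64 * v (.d 0) + 68 * v (.d 1) - 52 * v (.d 2) - 208 * v (.t 0) - 32 * v (.w 0) = 0 := by
    linear_combination w0
  have t1 := h (.t 1)
  rw [eT] at t1
  simp only [xu, xd, xt1, xw1, sA, sB, s40, s41, dl_add, dl_mul, dl_sub, dl_neg,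
    dl_ofNat, dl_one, dl_sq, dl_cb] at t1
  have t1 := (dl_eq_zero.1 t1).2
  have et1 : 40 * v (.u (0, 0)) - 65 * v (.u (0, 2)) + 10 * v (.u (0, 3)) - 130 * v (.d 1) +
      20 * v (.d 2) + 40 * v (.t 1) + 112 * v (.w 1) = 0 := by
    linear_combination t1
  have w1 := h (.w 1)
  rw [eW] at w1
  simp only [xu, xd, xt1, xw1, sB, sC, s40, s41, dl_add, dl_mul, dl_sub, dl_neg,
    dl_ofNat, dl_one, dl_sq, dl_cb] at w1
  have w1 := (dl_eq_zero.1 w1).2
  have ew1 : 12 * v (.u (0, 2)) - 2 * v (.u (0, 3)) + 24 * v (.d 1) - 4 * v (.d 2) = 0 := by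
    linear_combination w1
  have t2 := h (.t 2)
  rw [eT] at t2
  simp only [xu, xd, xt2, xw2, sA, sB, s40, s41, dl_add, dl_mul, dl_sub, dl_neg,
    dl_ofNat, dl_one, dl_sq, dl_cb] at t2
  have t2 := (dl_eq_zero.1 t2).2
  have et2 : -2 * v (.u (0, 0)) - 18 * v (.u (0, 1)) - 23 * v (.u (0, 2)) + 7 * v (.u (0, 3)) +
      18 * v (.d 0) + 23 * v (.d 1) - 7 * v (.d 2) - 2 * v (.t 2) - 2 * v (.w 2) = 0 := by
    linear_combination t2
  have w2 := h (.w 2)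
  rw [eW] at w2
  simp only [xu, xd, xt2, xw2, sB, sC, s40, s41, dl_add, dl_mul, dl_sub, dl_neg,
    dl_ofNat, dl_one, dl_sq, dl_cb] at w2
  have w2 := (dl_eq_zero.1 w2).2
  have ew2 : 6 * v (.u (0, 0)) - 18 * v (.u (0, 1)) + 9 * v (.u (0, 2)) + 1 * v (.u (0, 3)) +
      18 * v (.d 0) - 9 * v (.d 1) - 1 * v (.d 2) + 6 * v (.t 2) + 6 * v (.w 2) = 0 := by
    linear_combination w2
  have t3 := h (.t 3)
  rw [eT] at t3
  simp only [xu, xd, xt3, xw3, sA, sB, s40, s41, dl_add, dl_mul, dl_sub, dl_neg,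
    dl_ofNat, dl_one, dl_sq, dl_cb] at t3
  have t3 := (dl_eq_zero.1 t3).2
  have et3 : 10 * v (.u (0, 0)) - 2 * v (.u (0, 1)) - 11 * v (.u (0, 2)) + 3 * v (.u (0, 3)) -
      2 * v (.d 0) - 11 * v (.d 1) + 3 * v (.d 2) + 10 * v (.t 3) + 2 * v (.w 3) = 0 := by
    linear_combination t3
  have w3 := h (.w 3)
  rw [eW] at w3
  simp only [xu, xd, xt3, xw3, sB, sC, s40, s41, dl_add, dl_mul, dl_sub, dl_neg,
    dl_ofNat, dl_one, dl_sq, dl_cb] at w3
  have w3 := (dl_eq_zero.1 w3).2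
  have ew3 : -10 * v (.u (0, 0)) + 2 * v (.u (0, 1)) + 11 * v (.u (0, 2)) - 1 * v (.u (0, 3)) +
      2 * v (.d 0) + 11 * v (.d 1) - 1 * v (.d 2) - 10 * v (.t 3) - 2 * v (.w 3) = 0 := by
    linear_combination w3
  have zd0 : v (.d 0) = 0 := by
    linear_combination (-5/144) * ew1 + (1/24) * et2 + (1/72) * ew2 + (1/12) * et3 + (1/12) * ew3 +
      (1) * u2 + (5/4) * u3 + (-13/24) * u4
  have zd1 : v (.d 1) = 0 := by
    linear_combination (1/24) * ew1 + (1/12) * et3 + (1/12) * ew3 + (-1/2) * u3 + (-1/12) * u4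
  have zd2 : v (.d 2) = 0 := by
    linear_combination (1/2) * et3 + (1/2) * ew3 + (-1) * u4
  have zt0 : v (.t 0) = 0 := by
    linear_combination (1/144) * et0 + (-1/288) * ew0 + (-17/432) * ew1 + (1/18) * et2 + (1/54) * ew2 +
      (-1/144) * et3 + (-1/144) * ew3 + (-1) * u1 + (2/3) * u2 + (3/2) * u3 +
      (-49/144) * u4
  have zt1 : v (.t 1) = 0 := by
    linear_combination (-7/144) * eq1 + (5/144) * et1 + (-3/64) * ew1 + (3/32) * et3 + (3/32) * ew3 +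
      (-1) * u1 + (-7/24) * u3 + (-13/288) * u4
  have zt2 : v (.t 2) = 0 := by
    linear_combination (-1/144) * eq2 + (43/864) * ew1 + (-7/96) * et2 + (-25/864) * ew2 +
      (-17/96) * et3 + (-17/96) * ew3 + (-1) * u1 + (-1/2) * u2 + (-53/24) * u3 +
      (167/144) * u4
  have zt3 : v (.t 3) = 0 := by
    linear_combination (-1/48) * eq3 + (71/864) * ew1 + (1/288) * et2 + (1/864) * ew2 + (3/32) * et3 +
      (-11/96) * ew3 + (-1) * u1 + (1/6) * u2 + (9/8) * u3 + (-37/144) * u4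
  have zw0 : v (.w 0) = 0 := by
    linear_combination (-13/288) * et0 + (-5/576) * ew0 + (715/1728) * ew1 + (-4/9) * et2 +
      (-4/27) * ew2 + (-109/144) * et3 + (-109/144) * ew3 + (-16/3) * u2 +
      (-115/8) * u3 + (50/9) * u4
  have zw1 : v (.w 1) = 0 := by
    linear_combination (5/288) * eq1 + (-1/288) * et1 + (25/384) * ew1 + (-5/192) * et3 +
      (-5/192) * ew3 + (5/48) * u3 + (5/576) * u4
  have zw2 : v (.w 2) = 0 := by
    linear_combination (1/144) * eq2 + (101/864) * ew1 + (-5/96) * et2 + (133/864) * ew2 +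
      (13/96) * et3 + (13/96) * ew3 + (1/2) * u2 + (-91/24) * u3 + (1/144) * u4
  have zw3 : v (.w 3) = 0 := by
    linear_combination (5/48) * eq3 + (-187/864) * ew1 + (7/288) * et2 + (7/864) * ew2 + (-17/96) * et3 +
      (35/96) * ew3 + (7/6) * u2 + (-13/8) * u3 + (41/144) * u4
  funext i
  match i with
  | .u (0, 0) => exact u1
  | .u (0, 1) => exact u2
  | .u (0, 2) => exact u3
  | .u (0, 3) => exact u4
  | .z (0, 0) => exact z0
  | .z (0, 1) => exact z1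
  | .z (0, 2) => exact z2
  | .z (0, 3) => exact z3
  | .d 0 => exact zd0
  | .d 1 => exact zd1
  | .d 2 => exact zd2
  | .t 0 => exact zt0
  | .t 1 => exact zt1
  | .t 2 => exact zt2
  | .t 3 => exact zt3
  | .w 0 => exact zw0
  | .w 1 => exact zw1
  | .w 2 => exact zw2
  | .w 3 => exact zw3

theorem h3_2 : (Matrix.of fun i j => MvPolynomial.eval x2
    (MvPolynomial.pderiv j (Gs4 (c2 : Ix a2 → ℚ) s2 i))).det ≠ 0 := by
  refine Pool.Agent.Helper76.N4.jac s2 c2 x2 h1_2 fun v h => jac2 v fun i => ?_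
  have := h i
  rwa [map_c2 (algebraMap ℚ (DualNumber ℚ))] at this

end Pool.Agent.Helper88.N4
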