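import Mathlib
import Pool.Agent.Helper88.N4.Ex2Val

/-!
# The example of type 2: the quantities which must not vanish
-/

set_option autoImplicit false

namespace Pool.Agent.Helper88.N4

open Pool.Agent.Helper64.HK Pool.Agent.Helper24.HK Pool.Agent.Helper16.N4
open Pool.Agent.Helper28.HN (I aff)

section

variable {S : Type*} [CommRing S]

theorem sq10 (z : S) : sq1 0 0 0 0 z = 4 := by simp [sq1, sy2, sy3, sy4]

theorem sv40 (z : S) : sv4 0 0 0 0 z = 4 * z + (1 - z) * (2 + z) * z ^ 2 := by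
  rw [sv4, sq10]

theorem sps0 (z : S) : sps 0 0 0 0 z =
    -(1 - z) * (2 * z ^ 2 + (4 * z + (1 - z) * (2 + z) * z ^ 2)) := by
  rw [sps, sv40]
  ring

theorem sqh0 (a b c d z : S) : sqh 0 0 0 0 a b c d z =
    2 * (4 * a + c * ((1 - z) * (2 + z)) + d + 6 * ((1 - z) * (2 * c - d))) := by
  rw [sqh, sq10, sw4, se0]
  ring

end

/-- The roots. -/
def zz : Fin 4 → ℚ := ![-2, -1, 2, 1]

theorem pu (q : Fin 1 × Fin 4) : pt (rd s2 x2) 1 q.2.succ = 0 := by
  obtain ⟨l, i⟩ := q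
  obtain rfl : l = 0 := Subsingleton.elim _ _
  rfl

theorem p1 : pt (rd s2 x2) 1 1 = 0 := rfl
theorem p2 : pt (rd s2 x2) 1 2 = 0 := rfl
theorem p3 : pt (rd s2 x2) 1 3 = 0 := rfl
theorem p4 : pt (rd s2 x2) 1 4 = 0 := rfl

theorem nNx (i : Fin 4) : (Nx (c2 : Ix a2 → ℚ) 1 (Xz c2 (pt (rd s2 x2)) (zz i))).det ≠ 0 := by
  rw [Nx_s _ (pt0 x2), p1, p2, p3, p4, sv40]
  fin_cases i <;> norm_num [zz]

theorem nka (i : Fin 4) : kah (c2 : Ix a2 → ℚ) 1 (pt (rd s2 x2)) (zz i) ≠ 0 := by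
  rw [kah_s _ (pt0 x2), p1, p3]
  fin_cases i <;> norm_num [zz, ska, sy3]

theorem nth (i : Fin 4) : th (c2 : Ix a2 → ℚ) 1 (pt (rd s2 x2)) (zz i) ≠ 0 := by
  rw [th_s _ (pt0 x2), p1, p2, p3]
  fin_cases i <;> norm_num [zz, sth, sy3, sy2]

theorem psP_eq : psP (c2 : Ix a2 → ℚ) 1 (pt (rd s2 x2)) =
    -(1 - Polynomial.X) * (2 * Polynomial.X ^ 2 + (4 * Polynomial.X +
      (1 - Polynomial.X) * (2 + Polynomial.X) * Polynomial.X ^ 2)) := by
  have h0 : (fun i l => Polynomial.C (pt (rd s2 x2) i l)) 1 0 = (1 : Polynomial ℚ) :=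
    Polynomial.C_1
  rw [psP, map_c2 (Polynomial.C : ℚ →+* Polynomial ℚ), psh_s _ h0]
  simp only [p1, p2, p3, p4, map_zero]
  exact sps0 _

theorem nps (i : Fin 4) :
    (psP (c2 : Ix a2 → ℚ) 1 (pt (rd s2 x2))).derivative.eval (zz i) ≠ 0 := by
  have h2 : Polynomial.derivative (2 : Polynomial ℚ) = 0 := Polynomial.derivative_ofNat 2
  have h4 : Polynomial.derivative (4 : Polynomial ℚ) = 0 := Polynomial.derivative_ofNat 4
  rw [psP_eq]
  fin_cases i <;>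
  norm_num [zz, Polynomial.derivative_mul, Polynomial.derivative_X_pow]

theorem nqh (i : Fin 4) (z : ℚ) (h : 2 * (-(4 * zz i) - zz i ^ 2 * ((1 - z) * (2 + z)) +
    (4 * zz i + (1 - zz i) * (2 + zz i) * zz i ^ 2) +
    6 * ((1 - z) * (-(2 * zz i ^ 2) - (4 * zz i + (1 - zz i) * (2 + zz i) * zz i ^ 2)))) ≠ 0) :
    qh (c2 : Ix a2 → ℚ) 1 (pt (rd s2 x2)) (xq c2 s2 x2 (0, i)) z ≠ 0 := by
  have hz : x2 (.z (0, i)) = zz i := rfl
  rw [xq_eq, qh_s _ (pt0 x2), p1, p2, p3, p4, hz, xu, xu, xu, xu, sqh0, sv40]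
  intro h0
  apply h
  linear_combination h0

theorem nVm (l : Fin 1) : (Vm (c2 : Ix a2 → ℚ) (rd s2 x2) l).det ≠ 0 := by
  obtain rfl : l = 0 := Subsingleton.elim _ _
  have h : Vm (c2 : Ix a2 → ℚ) (rd s2 x2) 0 =
      !![2, -1, -4, -8; 1, -1, -1, -2; -2, -1, -4, -8; -1, -1, -1, 4] := by
    have hv : ∀ b, Vm (c2 : Ix a2 → ℚ) (rd s2 x2) 0 b =
        ![-zz b, -1, -zz b ^ 2, 4 * zz b + (1 - zz b) * (2 + zz b) * zz b ^ 2] := by
      intro b
      have : Vm (c2 : Ix a2 → ℚ) (rd s2 x2) 0 b = vh c2 1 (Xz c2 (pt (rd s2 x2)) (zz b)) := rfl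
      rw [this, vh_s _ (pt0 x2), p1, p2, p3, p4, sv40]
    ext b i
    rw [hv]
    fin_cases b <;> fin_cases i <;> norm_num [zz]
  rw [h]
  simp [Matrix.det_succ_row_zero, Fin.sum_univ_succ, Fin.succAbove]
  norm_num

theorem h2a : Pa4 (c2 : Ix a2 → ℚ) s2 x2 ≠ 0 := by
  rw [Pa4]
  refine mul_ne_zero (mul_ne_zero (mul_ne_zero (mul_ne_zero (mul_ne_zero (mul_ne_zero
    (mul_ne_zero (mul_ne_zero ?_ ?_) ?_) ?_) ?_) ?_) ?_) ?_) ?_
  · rw [det_Mx _ (pt0 x2)]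
    exact one_ne_zero
  · refine Finset.prod_ne_zero_iff.2 fun b _ => Finset.prod_ne_zero_iff.2 fun b' _ => ?_
    have h3 : rd s2 x2 (.inr none) = 3 := rfl
    have hb : ∀ i : Fin 4, rd s2 x2 (.inr (some (0, i))) = zz i := fun i => rfl
    have key : ∀ i j : Fin 4, i ≠ j → zz i - zz j ≠ 0 := by
      intro i j hij
      fin_cases i <;> fin_cases j <;> first | exact absurd rfl hij | norm_num [zz]
    have key3 : ∀ i : Fin 4, zz i - 3 ≠ 0 ∧ 3 - zz i ≠ 0 := by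
      intro i
      fin_cases i <;> norm_num [zz]
    split_ifs with h
    · exact one_ne_zero
    · rcases b with _ | ⟨l, i⟩ <;> rcases b' with _ | ⟨l', i'⟩
      · exact absurd rfl h
      · obtain rfl : l' = 0 := Subsingleton.elim _ _
        rw [h3, hb]
        exact (key3 i').2
      · obtain rfl : l = 0 := Subsingleton.elim _ _
        rw [h3, hb]
        exact (key3 i).1
      · obtain rfl : l = 0 := Subsingleton.elim _ _
        obtain rfl : l' = 0 := Subsingleton.elim _ _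
        rw [hb, hb]
        exact key i i' fun e => h (by rw [e])
  · refine Finset.prod_ne_zero_iff.2 fun q _ => ?_
    obtain ⟨l, i⟩ := q
    obtain rfl : l = 0 := Subsingleton.elim _ _
    exact nNx i
  · refine Finset.prod_ne_zero_iff.2 fun q _ => ?_
    obtain ⟨l, i⟩ := q
    obtain rfl : l = 0 := Subsingleton.elim _ _
    exact nka i
  · refine Finset.prod_ne_zero_iff.2 fun q _ => ?_
    obtain ⟨l, i⟩ := q
    obtain rfl : l = 0 := Subsingleton.elim _ _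
    exact nth i
  · refine Finset.prod_ne_zero_iff.2 fun q _ => ?_
    obtain ⟨l, i⟩ := q
    obtain rfl : l = 0 := Subsingleton.elim _ _
    exact nps i
  · refine Finset.prod_ne_zero_iff.2 fun q _ => Finset.prod_ne_zero_iff.2 fun b _ => ?_
    obtain ⟨l, i⟩ := q
    obtain rfl : l = 0 := Subsingleton.elim _ _
    split_ifs with h
    · exact one_ne_zero
    · rcases b with _ | ⟨l', i'⟩
      · have : qh (c2 : Ix a2 → ℚ) 1 (pt (rd s2 x2)) (xq c2 s2 x2 (0, i)) 3 ≠ 0 := by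
          apply nqh
          fin_cases i <;> norm_num [zz]
        exact this
      · obtain rfl : l' = 0 := Subsingleton.elim _ _
        have : qh (c2 : Ix a2 → ℚ) 1 (pt (rd s2 x2)) (xq c2 s2 x2 (0, i)) (zz i') ≠ 0 := by
          apply nqh
          fin_cases i <;> fin_cases i' <;> first
            | exact absurd (Or.inl rfl) h
            | exact absurd (Or.inr ⟨rfl, rfl⟩) h
            | norm_num [zz]
        exact this
  · exact Finset.prod_ne_zero_iff.2 fun l _ => nVm l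
  · have : qh (c2 : Ix a2 → ℚ) 1 (pt (rd s2 x2)) (dr x2) 1 ≠ 0 := by
      rw [dr_eq, qh_s _ (pt0 x2), p1, p2, p3, p4, xd, xd, xd, sqh0]
      norm_num
    exact this

theorem h2b : Pb4 (c2 : Ix a2 → ℚ) s2 x2 ≠ 0 := by
  rw [Pb4]
  have ht : ∀ r : Fin 4, x2 (.t r) = (![-2, 2, -1, 1] : Fin 4 → ℚ) r := fun r => rfl
  refine mul_ne_zero (mul_ne_zero (mul_ne_zero (mul_ne_zero ?_ ?_) ?_) ?_) ?_
  · refine Finset.prod_ne_zero_iff.2 fun r _ => ?_
    rw [det_Mx _ (pl0 x2 _)]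
    exact one_ne_zero
  · refine Finset.prod_ne_zero_iff.2 fun r _ => Finset.prod_ne_zero_iff.2 fun r' _ => ?_
    split_ifs with h
    · exact one_ne_zero
    · rw [ht, ht]
      fin_cases r <;> fin_cases r' <;> first | exact absurd rfl h | norm_num
  · refine Finset.prod_ne_zero_iff.2 fun r _ => ?_
    rw [ht]
    fin_cases r <;> norm_num
  · rw [Ah_s _ (pl0 x2 _), pl1, pl2, pl3, pl4, xu, xu, xu, xu, xt0, xd, xd, xd]
    norm_num [sA]
  · have : qh (c2 : Ix a2 → ℚ) 1 (pl s2 x2 (x2 (.t 0))) (dr x2) (x2 (.w 0)) ≠ 0 := by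
      rw [dr_eq, qh_s _ (pl0 x2 _), pl1, pl2, pl3, pl4, xu, xu, xu, xu, xt0, xw0, xd, xd, xd]
      norm_num [sqh, se0, se1, se2, sw4, sq1, sy2, sy3, sy4, sv4]
    exact this

theorem h2_2 : Pp4 (c2 : Ix a2 → ℚ) s2 x2 ≠ 0 := mul_ne_zero h2a h2b

end Pool.Agent.Helper88.N4
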