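import Mathlib
import Pool.Agent.Helper76.N4.Exist
import Pool.Agent.Helper88.N4.Ex2Ne
import Pool.Agent.Helper88.N4.Ex2Jac

/-!
# Configurations of type 2 exist for general coefficients
-/

set_option autoImplicit false

namespace Pool.Agent.Helper88.N4

open Pool.Agent.Helper64.HK Pool.Agent.Helper24.HK Pool.Agent.Helper16.N4

/-- Type 2. -/
theorem exc2 : ExC (![0, 1] : Fin (1 + 1) → Fin (3 + 1)) :=
  Pool.Agent.Helper76.N4.exc_of s2 c2 x2 h1_2 h2_2 h3_2

end Pool.Agent.Helper88.N4
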